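import Mathlib
import Pool.Agent.Lib.helper11.NetDet

namespace Pool.Agent.Results.MP_80f852_al.Bound

open Matrix Pool.Agent.Lib.helper11.NetDet

lemma short_list {V G : Type} [AddCommGroup V] [AddCommGroup G] [Finite G] (π : V →+ G)
    (E : Set V) (y : G) (hy : y ∈ AddSubgroup.closure (π '' E)) :
    ∃ l : List V, (∀ v ∈ l, v ∈ E) ∧ l.length + 1 ≤ Nat.card G ∧ π l.sum = y := by
  let R : ℕ → Set G := fun k => {y | ∃ l : List V, (∀ v ∈ l, v ∈ E) ∧ l.length ≤ k ∧ π l.sum = y}
  have hmono : ∀ k, R k ⊆ R (k + 1) := fun k y ⟨l, h1, h2, h3⟩ => ⟨l, h1, by omega, h3⟩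
  have hstab : ∀ k, R (k + 1) ⊆ R k → ∀ l : List V, (∀ v ∈ l, v ∈ E) → π l.sum ∈ R k := by
    intro k hk l
    induction l with
    | nil => exact fun _ => ⟨[], by simp, by simp, rfl⟩
    | cons a l ih =>
      intro h
      obtain ⟨l', h1, h2, h3⟩ := ih fun v hv => h v (List.mem_cons_of_mem _ hv)
      refine hk ⟨a :: l', ?_, by simpa using h2, by simp [h3]⟩
      intro v hv
      rcases List.mem_cons.1 hv with rfl | hv
      · exact h _ List.mem_cons_self
      · exact h1 v hv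
  have hcard : ∀ k, (∀ l : List V, (∀ v ∈ l, v ∈ E) → π l.sum ∈ R k) ∨ k + 1 ≤ (R k).ncard := by
    intro k
    induction k with
    | zero =>
      right
      exact (Set.ncard_pos (Set.toFinite _)).2 ⟨_, [], by simp, le_rfl, rfl⟩
    | succ k ih =>
      by_cases h : R (k + 1) ⊆ R k
      · exact Or.inl fun l hl => hmono k (hstab k h l hl)
      · rcases ih with ih | ih
        · exact Or.inl fun l hl => hmono k (ih l hl)
        · exact Or.inr (Nat.succ_le_of_lt (lt_of_le_of_lt ih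
            (Set.ncard_lt_ncard ⟨hmono k, h⟩ (Set.toFinite _))))
  have hl : ∃ l : List V, (∀ v ∈ l, v ∈ E) ∧ π l.sum = y := by
    have hy' : y ∈ AddSubmonoid.closure (π '' E) := by
      rwa [← AddSubgroup.closure_toAddSubmonoid_of_finite]
    clear hy
    induction hy' using AddSubmonoid.closure_induction with
    | mem x hx =>
      obtain ⟨v, hv, rfl⟩ := hx
      exact ⟨[v], by simpa using hv, by simp⟩
    | zero => exact ⟨[], by simp, by simp⟩
    | add x y _ _ h1 h2 =>
      obtain ⟨l, a1, rfl⟩ := h1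
      obtain ⟨l', a2, rfl⟩ := h2
      exact ⟨l ++ l', fun v hv => (List.mem_append.1 hv).elim (a1 v) (a2 v), by simp⟩
  obtain ⟨l, h1, rfl⟩ := hl
  have hpos : 0 < Nat.card G := Nat.card_pos
  have : π l.sum ∈ R (Nat.card G - 1) := by
    rcases hcard (Nat.card G - 1) with h | h
    · exact h l h1
    · have : R (Nat.card G - 1) = Set.univ :=
        Set.eq_of_subset_of_ncard_le (Set.subset_univ _) (by rw [Set.ncard_univ]; omega)
      rw [this]
      trivial
  obtain ⟨l', a1, a2, a3⟩ := this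
  exact ⟨l', a1, by omega, a3⟩

theorem result (n : ℕ) (x : Fin n → ℤ) : ∃ y : Fin n → ℤ, (∀ i, |y i| ≤ 2 ^ (n - 1)) ∧
    (∀ i, x i = 1 → y i = 1) ∧ ∀ i j k, x k = x i + x j → y k = y i + y j := by
  classical
  let cst : (Fin n → ℤ) → Fin n → ℚ := fun a j => a j
  let T₀ : Set (Fin n → ℤ) := {a | (∃ i, a = Pi.single i 1 ∧ x i = 1) ∨
    ∃ i j k, a = Pi.single i 1 + Pi.single j 1 - Pi.single k 1 ∧ x k = x i + x j}
  obtain ⟨b, hbT, hspan, hli⟩ := exists_linearIndependent ℚ (cst '' T₀)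
  have hli' : LinearIndepOn ℚ id b := hli
  have hsub : b ⊆ b ∪ Set.range fun j : Fin n => cst (Pi.single j 1) := Set.subset_union_left
  let b₂ := hli'.extend hsub
  have h1 : LinearIndependent ℚ ((↑) : b₂ → Fin n → ℚ) := hli'.linearIndepOn_extend hsub
  have h2 : ⊤ ≤ Submodule.span ℚ (Set.range ((↑) : b₂ → Fin n → ℚ)) := by
    rw [Subtype.range_coe, ← (Pi.basisFun ℚ (Fin n)).span_eq, Submodule.span_le]
    rintro _ ⟨j, rfl⟩
    refine hli'.subset_span_extend hsub (Or.inr ⟨j, ?_⟩)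
    ext k
    simp [cst, Pi.single_apply]
  let β := Module.Basis.mk h1 h2
  let e : b₂ ≃ Fin n := β.indexEquiv (Pi.basisFun ℚ (Fin n))
  let v : Fin n → Fin n → ℚ := fun r => (e.symm r : Fin n → ℚ)
  have hv : LinearIndependent ℚ v := h1.comp _ e.symm.injective
  have : ∀ r, ∃ a : Fin n → ℤ, cst a = v r ∧
      ((v r ∈ b ∧ a ∈ T₀) ∨ (v r ∉ b ∧ ∃ j, a = Pi.single j 1)) := by
    intro r
    by_cases h : v r ∈ b
    · obtain ⟨a, ha, ha'⟩ := hbT h
      exact ⟨a, ha', Or.inl ⟨h, ha⟩⟩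
    · obtain ⟨j, hj⟩ := (hli'.extend_subset hsub (e.symm r).2).resolve_left h
      exact ⟨_, hj, Or.inr ⟨h, j, rfl⟩⟩
  choose B₀ hB1 hB2 using this
  let B : Matrix (Fin n) (Fin n) ℤ := B₀
  have hdet : B.det ≠ 0 := by
    intro h0
    have hu : IsUnit (B.map (Int.cast : ℤ → ℚ)) := by
      rw [← linearIndependent_rows_iff_isUnit]
      have e0 : (B.map (Int.cast : ℤ → ℚ)).row = v := funext hB1
      rw [e0]
      exact hv
    rw [isUnit_iff_isUnit_det, ← Int.cast_det, h0] at hu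
    simp at hu
  let c : Fin n → ℤ := fun r => if v r ∈ b then B r ⬝ᵥ x else 0
  let N := LinearMap.range B.mulVecLin
  have hinj : Function.Injective B.mulVecLin := fun p q h =>
    sub_eq_zero.1 (eq_zero_of_mulVec_eq_zero hdet (by
      rw [mulVec_sub]; exact sub_eq_zero.2 h))
  have hcard : Nat.card ((Fin n → ℤ) ⧸ N) = B.det.natAbs := by
    rw [← Submodule.natAbs_det_equiv N (LinearEquiv.ofInjective B.mulVecLin hinj),
      ← LinearMap.det_toLin' B]
    rfl
  haveI : Finite ((Fin n → ℤ) ⧸ N) :=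
    Nat.finite_of_card_ne_zero (by rw [hcard]; simpa using hdet)
  let E : Set (Fin n → ℤ) := {a | ∃ r, v r ∉ b ∧ a = Pi.single r 1}
  have hmem : -N.mkQ c ∈ AddSubgroup.closure (N.mkQ.toAddMonoidHom '' E) := by
    have e1 : B *ᵥ x - c = ∑ r, (B *ᵥ x - c) r • (Pi.single r 1 : Fin n → ℤ) := by
      ext k
      simp [Pi.single_apply]
    have e2 : -N.mkQ c = N.mkQ (B *ᵥ x - c) := by
      rw [map_sub, (Submodule.Quotient.mk_eq_zero N).2 ⟨x, rfl⟩ |> (show N.mkQ (B *ᵥ x) = 0 from ·),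
        zero_sub]
    rw [e2, e1, map_sum]
    refine AddSubgroup.sum_mem _ fun r _ => ?_
    by_cases h : v r ∈ b
    · have : (B *ᵥ x - c) r = 0 := by simp [c, h, mulVec]
      rw [this, zero_smul, map_zero]
      exact zero_mem _
    · rw [map_smul]
      refine AddSubgroup.zsmul_mem _ (AddSubgroup.subset_closure ?_) _
      exact Set.mem_image_of_mem _ (show (Pi.single r 1 : Fin n → ℤ) ∈ E from ⟨r, h, rfl⟩)
  obtain ⟨l, hl1, hl2, hl3⟩ := short_list _ E _ hmem
  obtain ⟨y, hy⟩ : c + l.sum ∈ N := by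
    rw [← Submodule.Quotient.mk_eq_zero, ← Submodule.mkQ_apply, map_add]
    have : N.mkQ l.sum = -N.mkQ c := hl3
    rw [this, add_neg_cancel]
  have hy' : B *ᵥ y = c + l.sum := hy
  have hz : ∀ a ∈ T₀, a ⬝ᵥ y = a ⬝ᵥ x := by
    have h3 : ∀ r, v r ∈ b → l.sum r = 0 := by
      intro r hr
      clear hl2 hl3 hy hy'
      induction l with
      | nil => rfl
      | cons a l ih =>
        obtain ⟨s, hs, rfl⟩ := hl1 a List.mem_cons_self
        have : r ≠ s := fun h => hs (h ▸ hr)
        simp [ih fun v hv => hl1 v (List.mem_cons_of_mem _ hv), this]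
    have h4 : ∀ a : Fin n → ℤ, cst a ⬝ᵥ cst (y - x) = ((a ⬝ᵥ y - a ⬝ᵥ x : ℤ) : ℚ) := by
      intro a
      rw [← dotProduct_sub]
      simp [cst, dotProduct]
    have h5 : ∀ w ∈ Submodule.span ℚ b, w ⬝ᵥ cst (y - x) = 0 := by
      intro w hw
      induction hw using Submodule.span_induction with
      | mem w hw =>
        have hw' : v (e ⟨w, hli'.subset_extend hsub hw⟩) = w := by simp [v]
        have h6 := congrFun hy' (e ⟨w, hli'.subset_extend hsub hw⟩)
        rw [Pi.add_apply, h3 _ (hw'.symm ▸ hw), add_zero] at h6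
        simp only [c, hw', hw, if_true] at h6
        rw [← hw', ← hB1, h4]
        exact_mod_cast sub_eq_zero.2 h6
      | zero => simp
      | add a b _ _ ha hb => rw [add_dotProduct, ha, hb, add_zero]
      | smul t a _ ha => rw [smul_dotProduct, ha, smul_zero]
    intro a ha
    have := h5 (cst a) (hspan ▸ Submodule.subset_span ⟨a, ha, rfl⟩)
    rw [h4] at this
    exact sub_eq_zero.1 (by exact_mod_cast this)
  refine ⟨y, fun m => ?_, fun i hi => ?_, fun i j k h => ?_⟩
  · have e1 : cramer B (B *ᵥ y) = B.det • y := by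
      rw [cramer_eq_adjugate_mulVec, mulVec_mulVec, adjugate_mul, smul_mulVec, one_mulVec]
    have k1 : |cramer B c m| ≤ 2 ^ (n - 1) := by
      refine abs_det_updateCol_le B c m fun r => ?_
      rcases hB2 r with ⟨h, ⟨i, h1, h2⟩ | ⟨i, j, k, h1, h2⟩⟩ | ⟨h, j, h1⟩
      · exact Or.inl ⟨i, h1, Or.inr (by simp [c, h, B, h1, h2])⟩
      · exact Or.inr ⟨i, j, k, h1, by simp [c, h, B, h1, h2]⟩
      · exact Or.inl ⟨j, h1, Or.inl (by simp [c, h])⟩
    have k2 : ∀ a ∈ E, |cramer B a m| ≤ 2 ^ (n - 1) := by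
      rintro _ ⟨s, hs, rfl⟩
      refine abs_det_updateCol_le B _ m fun r => ?_
      rcases hB2 r with ⟨h, ⟨i, h1, h2⟩ | ⟨i, j, k, h1, h2⟩⟩ | ⟨h, j, h1⟩
      · exact Or.inl ⟨i, h1, by by_cases h : r = s <;> simp [h]⟩
      · have : r ≠ s := fun e => hs (e ▸ h)
        exact Or.inr ⟨i, j, k, h1, by simp [this]⟩
      · exact Or.inl ⟨j, h1, by by_cases h : r = s <;> simp [h]⟩
    have k3 : |cramer B l.sum m| ≤ l.length * 2 ^ (n - 1) := by
      clear hl2 hl3 hy hy' hz e1
      induction l with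
      | nil => simp
      | cons a l ih =>
        have a1 := ih fun v hv => hl1 v (List.mem_cons_of_mem _ hv)
        have a2 := k2 a (hl1 a List.mem_cons_self)
        rw [List.sum_cons, map_add, Pi.add_apply, List.length_cons]
        refine (abs_add_le _ _).trans ?_
        push_cast
        linarith
    have k4 : |B.det| * |y m| ≤ (l.length + 1) * 2 ^ (n - 1) := by
      have := congrFun e1 m
      rw [hy', map_add, Pi.add_apply, Pi.smul_apply, smul_eq_mul] at this
      rw [← abs_mul, ← this]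
      refine (abs_add_le _ _).trans ?_
      linarith
    have k5 : ((l.length : ℤ) + 1) ≤ |B.det| := by
      rw [hcard] at hl2
      rw [← Int.natCast_natAbs]
      exact_mod_cast hl2
    exact le_of_mul_le_mul_left (k4.trans (mul_le_mul_of_nonneg_right k5 (by positivity)))
      (abs_pos.2 hdet)
  · simpa [hi] using hz _ (Or.inl ⟨i, rfl, hi⟩)
  · have := hz _ (Or.inr ⟨i, j, k, rfl, h⟩)
    simp only [sub_dotProduct, add_dotProduct, single_dotProduct, one_mul] at this
    omega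

end Pool.Agent.Results.MP_80f852_al.Bound
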